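import Pool.Agent.J6H91.BSDR.T9
import Pool.Agent.J6H34.MSQ.FN2

/-!
# The explicit formula in mean square for the product of Birch and Swinnerton-Dyer

`E : y² = x³ + a x + b` is an elliptic curve over `ℚ`, `a, b ∈ ℤ`, `N_p` is the number of points modulo `p` (with
the point at infinity), `a_p = p + 1 - N_p`, `P(x) = ∏_{p ≤ x, p ∤ 2Δ} N_p / p` is the product of Birch and
Swinnerton-Dyer and `P*(x) = P(x) exp (∑_{√x < p ≤ x, p ∤ 2Δ} (a_p² - 2p) / (2p²))` is the product with its second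
order correction (`P*(x) / P(x) → 1 / √2`).  `F` is the entire continuation of the L-series of `E` without the
Euler factors at the primes `p ∣ 2Δ` (which have no zeros on the line `Re s = 1`), `f` is the newform of `E`.
The variable is `u = log x`.

For an integer `ρ ≥ 0` and `B > 0` put `c = ρ γ_E - log B`.  The statement [RH for `F`, `ord_{s=1} F = ρ` and
`F^(ρ)(1) / ρ! = B`] is equivalent to each of the following properties, from the weakest to the strongest: the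
mean value over `[1, U]` of `|log P(e^u) - ρ log u - c - log √2|` tends to `0`; the same for the mean square;
`log P*(e^u) - ρ log u - c` is square integrable on `(1, ∞)`; the integral over `[1, U]` of the square of
`err(u) = u (log P*(e^u) - ρ log u - c)` is `O(U)`; `err(u)` obeys the explicit formula
`∑_{γ ≠ 0} m_γ sin (γ u) / γ` over the zeros `1 + iγ` of `F`, of multiplicity `m_γ`, in mean square, with the
exact mean square `∑_{|γ| > V} m_γ² / γ²` of the difference to the sum over the zeros with `0 < |γ| ≤ V`;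
`err(u)` has a limiting distribution, with mean `0` and variance `∑_{γ ≠ 0} m_γ² / γ²`.
(The conditions without the factor `u` were first proved by another member of the team, helper91.)
-/

set_option autoImplicit false

namespace Pool.Agent.Results.MP_92892c_nt.ExplicitFormulaMeanSquare

open Filter Topology Classical CongruenceSubgroup UpperHalfPlane MeasureTheory
open scoped MatrixGroups

/-- `N_p`: the number of points of `y² = x³ + a x + b` modulo `p`, with the point at infinity. -/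
noncomputable def numPoints (a b : ℤ) (p : ℕ) : ℕ :=
  Nat.card {q : ZMod p × ZMod p // q.2 ^ 2 = q.1 ^ 3 + (a : ZMod p) * q.1 + (b : ZMod p)} + 1

/-- `p` is a prime that does not divide `2 Δ`, where `Δ = -4 a³ - 27 b²`. -/
def Good (a b : ℤ) (p : ℕ) : Prop :=
  p.Prime ∧ ¬ ((p : ℤ) ∣ 2 * (-4 * a ^ 3 - 27 * b ^ 2))

/-- The Birch and Swinnerton-Dyer product `P(x) = ∏_{p ≤ x, p ∤ 2Δ} N_p / p`. -/
noncomputable def P (a b : ℤ) (x : ℝ) : ℝ :=
  ∏ p ∈ (Finset.range (⌊x⌋₊ + 1)).filter (Good a b), ((numPoints a b p : ℝ) / p)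

/-- The product with the second order correction,
`P*(x) = P(x) exp (∑_{√x < p ≤ x, p ∤ 2Δ} (a_p² - 2p) / (2p²))`, `a_p = p + 1 - N_p`. -/
noncomputable def Pstar (a b : ℤ) (x : ℝ) : ℝ :=
  P a b x * Real.exp (∑ p ∈ (Finset.range (⌊x⌋₊ + 1)).filter (fun p => Good a b p ∧ √x < p),
    (((p : ℝ) + 1 - numPoints a b p) ^ 2 - 2 * p) / (2 * (p : ℝ) ^ 2))

/-- `F` is an entire function which for `Re s > 3/2` is the incomplete `L`-series
`∏_{p ∤ 2Δ} (1 - a_p p^{-s} + p^{1-2s})⁻¹`, `a_p = p + 1 - N_p`, of `y² = x³ + a x + b`. -/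
def IsLSeries (a b : ℤ) (F : ℂ → ℂ) : Prop :=
  Differentiable ℂ F ∧ ∀ s : ℂ, (3 : ℝ) / 2 < s.re →
    HasProd (fun p : ℕ => if Good a b p then
      (1 - ((p : ℂ) + 1 - (numPoints a b p : ℂ)) * (p : ℂ) ^ (-s) + (p : ℂ) ^ (1 - 2 * s))⁻¹ else 1)
      (F s)

/-- The `n`-th Fourier coefficient of `f`. -/
noncomputable def coef {N : ℕ} (f : CuspForm (Gamma0 N : Subgroup (GL (Fin 2) ℝ)) 2) (n : ℕ) : ℂ :=
  (qExpansion 1 f).coeff n

/-- `f ∈ S_2(Γ₀(N))` is the newform of the elliptic curve `E : y² = x³ + a x + b` of conductor `N`: the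
Fourier coefficients `c(n)` of `f` are real with `c(1) = 1`, they satisfy the Hecke relations
`c(mn) = c(m) c(n)` for coprime `m`, `n` and `c(p^(j+2)) = c(p) c(p^(j+1)) - p c(p^j)` (without the last
term if `p ∣ N`), `|c(p)| ≤ 2 √p` for all `p ∤ N` (Hasse) and `c(p) = 0, 1, -1` for `p ∣ N`, `f` is an
eigenfunction of the Fricke involution: `f(-1/(Nτ)) = -w N τ² f(τ)` with `w = ±1`, the primes `p ∤ 2Δ` do
not divide `N`, and `c(p) = a_p = p + 1 - N_p` for these primes. -/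
structure IsNewformOf (a b : ℤ) (N : ℕ) (f : CuspForm (Gamma0 N : Subgroup (GL (Fin 2) ℝ)) 2) :
    Prop where
  one : coef f 1 = 1
  real : ∀ n, (coef f n).im = 0
  mul : ∀ m n : ℕ, Nat.Coprime m n → coef f (m * n) = coef f m * coef f n
  pow : ∀ p j : ℕ, p.Prime → coef f (p ^ (j + 2)) = coef f p * coef f (p ^ (j + 1)) -
      (if p ∣ N then 0 else (p : ℂ) * coef f (p ^ j))
  good : ∀ p : ℕ, p.Prime → ¬ p ∣ N → ‖coef f p‖ ≤ 2 * Real.sqrt p
  bad : ∀ p : ℕ, p.Prime → p ∣ N → coef f p = 0 ∨ coef f p = 1 ∨ coef f p = -1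
  fricke : ∃ w : ℝ, (w = 1 ∨ w = -1) ∧ ∀ τ τ' : ℍ, (τ' : ℂ) * ((N : ℂ) * (τ : ℂ)) = -1 →
    f τ' = -(w : ℂ) * (N : ℂ) * (τ : ℂ) ^ 2 * f τ
  level : ∀ p : ℕ, Good a b p → ¬ p ∣ N
  points : ∀ p : ℕ, Good a b p → coef f p = (p : ℂ) + 1 - (numPoints a b p : ℂ)

/-- The Riemann hypothesis for the L-function of `E`: no zeros to the right of the line `Re s = 1`. -/
def RH (F : ℂ → ℂ) : Prop := ∀ s : ℂ, 1 < s.re → F s ≠ 0

/-- the leading coefficient `F^(r)(1) / r!` of the Taylor series of `F` at `1` -/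
noncomputable def lead (F : ℂ → ℂ) (r : ℕ) : ℂ := iteratedDeriv r F 1 / (r.factorial : ℂ)

/-- the multiplicity `m_γ` of `1 + iγ` as a zero of `F` (it is `0` if `F (1 + iγ) ≠ 0`) -/
noncomputable def mult (F : ℂ → ℂ) (γ : ℝ) : ℕ := analyticOrderNatAt F (1 + γ * Complex.I)

/-- the normalised error `u (log P*(e^u) - ρ log u - (ρ γ_E - log B))` -/
noncomputable def err (a b : ℤ) (ρ : ℕ) (B u : ℝ) : ℝ :=
  u * (Real.log (Pstar a b (Real.exp u)) - ρ * Real.log u -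
    (ρ * Real.eulerMascheroniConstant - Real.log B))

/-- the sum `∑_{0 < |γ| ≤ V} (m_γ / γ) sin (γ u)` over the zeros `1 + iγ` of `F` (only the zeros contribute,
so that this is a finite sum) -/
noncomputable def osc (F : ℂ → ℂ) (V u : ℝ) : ℝ :=
  ∑' γ : ℝ, if 0 < |γ| ∧ |γ| ≤ V then (mult F γ : ℝ) / γ * Real.sin (γ * u) else 0

/-- the sum `∑_{|γ| > V} (m_γ / γ)²` over the zeros `1 + iγ` of `F` -/
noncomputable def tailSum (F : ℂ → ℂ) (V : ℝ) : ℝ :=
  ∑' γ : ℝ, if V < |γ| then ((mult F γ : ℝ) / γ) ^ 2 else 0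

/-! ### Translation to the definitions of the imported files -/

variable {a b : ℤ}

theorem P_eq : P a b = Pool.Agent.W263.BSD.bsdProduct a b := by
  funext x
  unfold P Pool.Agent.W263.BSD.bsdProduct numPoints Pool.Agent.W263.BSD.pointCount
  refine Finset.prod_congr rfl fun p _ => ?_
  push_cast
  rfl

theorem Pstar_eq : Pstar a b = Pool.Agent.W263.BSD.bsdStar a b := by
  funext x
  unfold Pstar Pool.Agent.W263.BSD.bsdStar
  rw [P_eq]
  refine congrArg _ (congrArg Real.exp ?_)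
  refine Finset.sum_congr rfl fun p _ => ?_
  have h : (p : ℝ) + 1 - numPoints a b p = (p : ℝ) - Pool.Agent.W263.BSD.pointCount a b p := by
    unfold numPoints Pool.Agent.W263.BSD.pointCount
    push_cast
    ring
  rw [h]

theorem numPoints_sub (p : ℕ) : (p : ℂ) + 1 - (numPoints a b p : ℂ) =
    (p : ℂ) - (Pool.Agent.W263.BSD.pointCount a b p : ℂ) := by
  unfold numPoints Pool.Agent.W263.BSD.pointCount
  push_cast
  ring

theorem isLSeries {F : ℂ → ℂ} (hF : IsLSeries a b F) :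
    Pool.Agent.W263.BSD.IsLSeries a b F := by
  refine ⟨hF.1, fun s hs => ?_⟩
  have h := hF.2 s hs
  simp only [numPoints_sub] at h
  exact h

theorem hecke {N : ℕ} {f : CuspForm (Gamma0 N : Subgroup (GL (Fin 2) ℝ)) 2}
    (hf : IsNewformOf a b N f) : Pool.Agent.TH941.Hecke f where
  one := hf.one
  real := hf.real
  mul := hf.mul
  pow := hf.pow
  good := hf.good
  bad := fun p hp h => by
    rcases hf.bad p hp h with h1 | h1 | h1
    · have h2 : ‖coef f p‖ ≤ 1 := by rw [h1]; simp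
      exact h2
    · have h2 : ‖coef f p‖ ≤ 1 := by rw [h1]; simp
      exact h2
    · have h2 : ‖coef f p‖ ≤ 1 := by rw [h1]; simp
      exact h2

theorem growth {N : ℕ} [NeZero N] {f : CuspForm (Gamma0 N : Subgroup (GL (Fin 2) ℝ)) 2}
    (hf : IsNewformOf a b N f) (hΔ : 4 * a ^ 3 + 27 * b ^ 2 ≠ 0) {F : ℂ → ℂ}
    (hF : IsLSeries a b F) : Pool.Agent.J6H91.BSDR.PolyGrowth2 F := by
  obtain ⟨w, hw, hfr⟩ := hf.fricke
  have hN0 : (0 : ℝ) ≤ (N : ℝ) := Nat.cast_nonneg N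
  have hsq : ((Real.sqrt N : ℝ) : ℂ) ^ 2 = (N : ℂ) := by
    have h1 : (Real.sqrt N) ^ 2 = (N : ℝ) := Real.sq_sqrt hN0
    exact_mod_cast congrArg (fun x : ℝ => (x : ℂ)) h1
  have hf' : W388.IsNewf N 2 f w := by
    refine ⟨hf.one, hf.real, hf.mul, ?_, hw, ?_⟩
    · intro p j hp
      have h1 := hf.pow p j hp
      unfold coef at h1
      rw [h1]
      norm_num
    · intro τ τ' h
      rw [hfr τ τ' h]
      congr 1
      have hI : Complex.I ^ 2 = -1 := Complex.I_sq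
      have : (((Real.sqrt N : ℝ) : ℂ) * (τ : ℂ) / Complex.I) ^ (2 : ℤ) = -((N : ℂ) * (τ : ℂ) ^ 2) := by
        rw [zpow_ofNat, div_pow, mul_pow, hsq, hI]
        ring
      rw [this]
      ring
  exact Pool.Agent.J6H91.BSDR.poly_growth hf' hΔ (isLSeries hF)
    (fun p hp => (hf.points p hp).trans (numPoints_sub p)) (fun p hp hg => hf.level p hg hp)

theorem norm_lead (F : ℂ → ℂ) (r : ℕ) : ‖lead F r‖ = Pool.Agent.W263.BSD.leadAbs F r := by
  unfold lead Pool.Agent.W263.BSD.leadAbs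
  rw [norm_div, Complex.norm_natCast]

/-- **Main theorem.** -/
theorem result (a b : ℤ) (hΔ : 4 * a ^ 3 + 27 * b ^ 2 ≠ 0) (N : ℕ) [NeZero N]
    (f : CuspForm (Gamma0 N : Subgroup (GL (Fin 2) ℝ)) 2) (hf : IsNewformOf a b N f)
    (F : ℂ → ℂ) (hF : IsLSeries a b F) :
    List.TFAE [
      RH F,
      ∃ ρ c : ℝ, Tendsto (fun U : ℝ =>
        (∫ u in (1 : ℝ)..U, |Real.log (P a b (Real.exp u)) - ρ * Real.log u - c|) / U) atTop (𝓝 0),
      ∃ ρ c : ℝ, IntegrableOn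
        (fun u : ℝ => (Real.log (Pstar a b (Real.exp u)) - ρ * Real.log u - c) ^ 2) (Set.Ioi 1),
      ∃ ρ c C : ℝ, ∀ U : ℝ, 1 ≤ U → ∫ u in (1 : ℝ)..U,
        (u * (Real.log (Pstar a b (Real.exp u)) - ρ * Real.log u - c)) ^ 2 ≤ C * U] ∧
    (∀ ρ : ℕ, ∀ B : ℝ, 0 < B → List.TFAE [
      RH F ∧ analyticOrderAt F 1 = ρ ∧ lead F ρ = B,
      Tendsto (fun U : ℝ => (∫ u in (1 : ℝ)..U, |Real.log (P a b (Real.exp u)) - ρ * Real.log u -
        (Real.log (√2) + ρ * Real.eulerMascheroniConstant - Real.log B)|) / U) atTop (𝓝 0),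
      Tendsto (fun U : ℝ => (∫ u in (1 : ℝ)..U, (Real.log (P a b (Real.exp u)) - ρ * Real.log u -
        (Real.log (√2) + ρ * Real.eulerMascheroniConstant - Real.log B)) ^ 2) / U) atTop (𝓝 0),
      IntegrableOn (fun u : ℝ => (Real.log (Pstar a b (Real.exp u)) - ρ * Real.log u -
        (ρ * Real.eulerMascheroniConstant - Real.log B)) ^ 2) (Set.Ioi 1),
      ∃ C : ℝ, ∀ U : ℝ, 1 ≤ U → ∫ u in (1 : ℝ)..U, (err a b ρ B u) ^ 2 ≤ C * U,
      Summable (fun γ : ℝ => if 0 < |γ| then ((mult F γ : ℝ) / γ) ^ 2 else 0) ∧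
        ∀ V : ℝ, 0 ≤ V → Tendsto (fun U : ℝ =>
          (∫ u in (1 : ℝ)..U, (err a b ρ B u - osc F V u) ^ 2) / U) atTop (𝓝 (tailSum F V)),
      ∃ μ : Measure ℝ, IsProbabilityMeasure μ ∧ Integrable (fun x : ℝ => x ^ 2) μ ∧
        ∫ x, x ∂μ = 0 ∧ ∫ x, x ^ 2 ∂μ = tailSum F 0 ∧
        ∀ g : ℝ → ℝ, Continuous g → (∃ K : ℝ, ∀ x, |g x| ≤ K * (1 + x ^ 2)) →
          Tendsto (fun U : ℝ => (∫ u in (1 : ℝ)..U, g (err a b ρ B u)) / U) atTop
            (𝓝 (∫ x, g x ∂μ))]) := by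
  have hF' := isLSeries hF
  obtain ⟨r, hr⟩ := Pool.Agent.W263.BSD.order_finite hF'
  have hrs : Tendsto (Pool.Agent.W263.BSD.rsSum a b) atTop (𝓝 0) :=
    (hecke hf).rsSum_tendsto hΔ fun p hp => (hf.points p hp).trans (numPoints_sub p)
  have hg := growth hf hΔ hF
  set c0 : ℝ := r * Real.eulerMascheroniConstant - Real.log ‖lead F r‖ with hc0
  have hL2 : RH F → IntegrableOn (fun u => Pool.Agent.J6H91.BSDR.DS a b r c0 u ^ 2) (Set.Ioi 1) := by
    intro hRH
    rw [hc0, norm_lead]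
    exact Pool.Agent.J6H91.BSDR.star_L2 hF' hg hr hRH
  have hcma : ∀ ρ c : ℝ, Pool.Agent.J6H91.BSDR.MA (Pool.Agent.J6H91.BSDR.DP a b ρ c) →
      RH F ∧ ρ = r ∧ c = c0 + Real.log 2 / 2 := by
    intro ρ c h
    obtain ⟨h1, h2, h3⟩ := Pool.Agent.J6H34.MSQ.conv_ma hΔ hrs hF' hg hr h
    refine ⟨h1, h2, ?_⟩
    rw [h3, hc0, norm_lead]
  have hsq : ∀ ρ c : ℝ, IntegrableOn (fun u => Pool.Agent.J6H91.BSDR.DS a b ρ c u ^ 2) (Set.Ioi 1) →
      Pool.Agent.J6H91.BSDR.MS (Pool.Agent.J6H91.BSDR.DP a b ρ (c + Real.log 2 / 2)) :=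
    fun ρ c h => Pool.Agent.J6H91.BSDR.ms_of_star hΔ hrs h
  have hma : ∀ ρ c : ℝ, Pool.Agent.J6H91.BSDR.MS (Pool.Agent.J6H91.BSDR.DP a b ρ c) →
      Pool.Agent.J6H91.BSDR.MA (Pool.Agent.J6H91.BSDR.DP a b ρ c) :=
    fun ρ c h => h.ma (Pool.Agent.J6H91.BSDR.nice_DP ρ c)
  have hexpl : RH F → Pool.Agent.J6H34.MSQ.Expl a b F r c0 := by
    intro hRH
    rw [hc0, norm_lead]
    exact Pool.Agent.J6H34.MSQ.expl hF' hg hr hRH
  have hconv : ∀ ρ c C : ℝ, (∀ U : ℝ, 1 ≤ U →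
      ∫ u in (1 : ℝ)..U, (Pool.Agent.J6H34.MSQ.er a b ρ c u) ^ 2 ≤ C * U) →
      RH F ∧ ρ = r ∧ c = c0 := by
    intro ρ c C h
    obtain ⟨h1, h2, h3⟩ := Pool.Agent.J6H34.MSQ.conv hΔ hrs hF' hg hr h
    refine ⟨h1, h2, ?_⟩
    rw [h3, hc0, norm_lead]
  have hosc : ∀ V u, Pool.Agent.J6H34.MSQ.osc F V u = osc F V u := fun V u => rfl
  have htail : ∀ V : ℝ, 0 ≤ V → (∑' γ : ℝ, if |γ| ≤ V then 0 else
      ((Pool.Agent.J6H34.MSQ.mult F γ : ℝ) / γ) ^ 2) = tailSum F V := by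
    intro V _
    unfold tailSum
    refine tsum_congr fun γ => ?_
    by_cases h : |γ| ≤ V
    · rw [if_pos h, if_neg (not_lt.mpr h)]
    · rw [if_neg h, if_pos (not_le.mp h)]
      rfl
  have hzero : ∀ γ : ℝ, ((Pool.Agent.J6H34.MSQ.mult F γ : ℝ) / γ) ^ 2 =
      if 0 < |γ| then ((mult F γ : ℝ) / γ) ^ 2 else 0 := by
    intro γ
    by_cases h : γ = 0
    · subst h; simp
    · rw [if_pos (abs_pos.mpr h)]
      rfl
  have herr : ∀ (ρ : ℕ) (B u : ℝ), Pool.Agent.J6H34.MSQ.er a b ρ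
      (ρ * Real.eulerMascheroniConstant - Real.log B) u = err a b ρ B u := by
    intro ρ B u
    unfold Pool.Agent.J6H34.MSQ.er Pool.Agent.J6H91.BSDR.DS err
    rw [Pstar_eq]
  have hpos : 0 < ‖lead F r‖ := by
    rw [norm_lead]
    exact (Pool.Agent.W263.BSD.lead_limit hF'.1 hr).1
  have hreal : RH F → lead F r = (‖lead F r‖ : ℂ) := by
    intro hRH
    rw [norm_lead]
    exact Pool.Agent.J6H91.BSDR.lead_pos hF' (fun s hs => hRH s (by simpa using hs)) hr
  refine ⟨?_, fun ρ B hB => ?_⟩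
  · simp only [Pstar_eq, P_eq]
    tfae_have 1 → 3 := fun h => ⟨r, c0, hL2 h⟩
    tfae_have 3 → 2 := fun ⟨ρ, c, h⟩ => ⟨ρ, _, hma _ _ (hsq ρ c h)⟩
    tfae_have 2 → 1 := fun ⟨ρ, c, h⟩ => (hcma ρ c h).1
    tfae_have 4 → 1 := fun ⟨ρ, c, C, h⟩ => (hconv ρ c C h).1
    tfae_have 1 → 4 := by
      intro h
      have h1 := (hexpl h).main hF' (-1)
      have h2 : ∀ u, Pool.Agent.J6H34.MSQ.osc F (-1) u = 0 := by
        intro u
        unfold Pool.Agent.J6H34.MSQ.osc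
        refine (tsum_congr fun γ => if_neg ?_).trans tsum_zero
        rintro ⟨h3, h4⟩
        linarith
      simp_rw [h2, sub_zero] at h1
      obtain ⟨C, hC⟩ := Pool.Agent.J6H34.MSQ.bdd_of_tendsto h1
      exact ⟨r, c0, C, fun U hU => hC U hU⟩
    tfae_finish
  have hlog : Real.log (√2) + ρ * Real.eulerMascheroniConstant - Real.log B =
      (ρ * Real.eulerMascheroniConstant - Real.log B) + Real.log 2 / 2 := by
    rw [Real.log_sqrt (by norm_num)]
    ring
  have hfin : RH F → ρ = r → ρ * Real.eulerMascheroniConstant - Real.log B = c0 →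
      RH F ∧ analyticOrderAt F 1 = ρ ∧ lead F ρ = B := by
    intro h1 h2 h3
    subst h2
    refine ⟨h1, hr, ?_⟩
    have h4 : Real.log B = Real.log ‖lead F ρ‖ := by
      rw [hc0] at h3
      linarith
    rw [hreal h1, ← Real.log_injOn_pos hB hpos h4]
  tfae_have 1 → 4 := by
    rintro ⟨h1, h2, h3⟩
    have hrρ : r = ρ := by
      rw [hr] at h2
      exact_mod_cast h2
    subst hrρ
    have h4 := hL2 h1
    rw [hc0, h3, Complex.norm_real, Real.norm_of_nonneg hB.le] at h4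
    rw [Pstar_eq]
    exact h4
  tfae_have 4 → 3 := by
    intro h
    rw [hlog, P_eq]
    rw [Pstar_eq] at h
    exact hsq ρ _ h
  tfae_have 3 → 2 := by
    intro h
    rw [P_eq] at h ⊢
    exact hma ρ _ h
  tfae_have 2 → 1 := by
    intro h
    rw [hlog, P_eq] at h
    obtain ⟨h1, h2, h3⟩ := hcma ρ _ h
    exact hfin h1 (by exact_mod_cast h2) (by linarith)
  tfae_have 1 → 6 := by
    rintro ⟨h1, h2, h3⟩
    have hrρ : r = ρ := by
      rw [hr] at h2
      exact_mod_cast h2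
    subst hrρ
    have h4 := hexpl h1
    rw [hc0, h3, Complex.norm_real, Real.norm_of_nonneg hB.le] at h4
    refine ⟨?_, fun V hV => ?_⟩
    · have h5 := h4.summable hF'
      simp_rw [hzero] at h5
      exact h5
    · have h5 := h4.main hF' V
      rw [htail V hV] at h5
      simp_rw [herr, hosc] at h5
      exact h5
  tfae_have 1 → 7 := by
    rintro ⟨h1, h2, h3⟩
    have hrρ : r = ρ := by
      rw [hr] at h2
      exact_mod_cast h2
    subst hrρ
    have h4 := hexpl h1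
    rw [hc0, h3, Complex.norm_real, Real.norm_of_nonneg hB.le] at h4
    obtain ⟨μ, m1, m2, m3, m4, m5⟩ := h4.law hF'
    refine ⟨μ, m1, m2, m3, ?_, fun g hg hK => ?_⟩
    · rw [m4]
      unfold tailSum
      exact tsum_congr hzero
    · have h5 := m5 g hg hK
      simp_rw [herr] at h5
      exact h5
  have hb : ∀ S : ℝ, Tendsto (fun U : ℝ => (∫ u in (1 : ℝ)..U, (err a b ρ B u) ^ 2) / U) atTop
      (𝓝 S) → ∃ C : ℝ, ∀ U : ℝ, 1 ≤ U → ∫ u in (1 : ℝ)..U, (err a b ρ B u) ^ 2 ≤ C * U := by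
    intro S h
    simp_rw [← herr] at h ⊢
    exact Pool.Agent.J6H34.MSQ.bdd_of_tendsto h
  tfae_have 6 → 5 := by
    rintro ⟨-, h⟩
    have h1 := h 0 le_rfl
    have h2 : ∀ u, osc F 0 u = 0 := by
      intro u
      unfold osc
      refine (tsum_congr fun γ => if_neg ?_).trans tsum_zero
      rintro ⟨h3, h4⟩
      linarith
    simp_rw [h2, sub_zero] at h1
    exact hb _ h1
  tfae_have 7 → 5 := by
    rintro ⟨μ, -, -, -, -, h⟩
    exact hb _ (h (fun x => x ^ 2) (by fun_prop) ⟨1, fun x => by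
      rw [one_mul, abs_of_nonneg (sq_nonneg x)]
      linarith⟩)
  tfae_have 5 → 1 := by
    rintro ⟨C, h⟩
    simp_rw [← herr] at h
    obtain ⟨h1, h2, h3⟩ := hconv ρ _ C h
    exact hfin h1 (by exact_mod_cast h2) h3
  tfae_finish

end Pool.Agent.Results.MP_92892c_nt.ExplicitFormulaMeanSquare
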