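import Pool.Agent.J6H91.BSDR.T9
import Pool.Agent.J6H91.BSDR.W7

/-!
# Means of the product of Birch and Swinnerton-Dyer and the leading term of the L-function

`E : y² = x³ + a x + b` is an elliptic curve over `ℚ`, `a, b ∈ ℤ`, `N_p` is the number of points modulo `p` (with
the point at infinity) and `P(x) = ∏_{p ≤ x, p ∤ 2Δ} N_p / p` is the product of Birch and Swinnerton-Dyer.  `F` is
the entire continuation of the L-series of `E` without the Euler factors at the primes `p ∣ 2Δ`,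
`r = ord_{s=1} F`; `f` is the newform of `E`.

`R_κ(x) = ∑_{p ≤ x, p ∤ 2Δ} (1 - log p / log x)^κ log (N_p / p)` is the Riesz mean of `log P` of real order
`κ ≥ 0` (so `R_0 = log P`, and `R_1(x)` is the mean value of `log P(t)` on `[1, x]` with respect to `dt / t`).
-/

set_option autoImplicit false

namespace Pool.Agent.Results.MP_92892c_nt.RieszMeans

open Filter Topology Classical CongruenceSubgroup UpperHalfPlane
open scoped MatrixGroups

/-- `N_p`: the number of points of `y² = x³ + a x + b` modulo `p`, with the point at infinity. -/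
noncomputable def numPoints (a b : ℤ) (p : ℕ) : ℕ :=
  Nat.card {q : ZMod p × ZMod p // q.2 ^ 2 = q.1 ^ 3 + (a : ZMod p) * q.1 + (b : ZMod p)} + 1

/-- `p` is a prime that does not divide `2 Δ`, where `Δ = -4 a³ - 27 b²`. -/
def Good (a b : ℤ) (p : ℕ) : Prop :=
  p.Prime ∧ ¬ ((p : ℤ) ∣ 2 * (-4 * a ^ 3 - 27 * b ^ 2))

/-- The Birch and Swinnerton-Dyer product `P(x) = ∏_{p ≤ x, p ∤ 2Δ} N_p / p`. -/
noncomputable def P (a b : ℤ) (x : ℝ) : ℝ :=
  ∏ p ∈ (Finset.range (⌊x⌋₊ + 1)).filter (Good a b), ((numPoints a b p : ℝ) / p)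

/-- The Riesz mean `R_κ(x) = ∑_{p ≤ x, p ∤ 2Δ} (1 - log p / log x)^κ log (N_p / p)` of `log P` of real
order `κ`. -/
noncomputable def R (a b : ℤ) (κ : ℝ) (x : ℝ) : ℝ :=
  ∑ p ∈ (Finset.range (⌊x⌋₊ + 1)).filter (Good a b),
    (1 - Real.log p / Real.log x) ^ κ * Real.log ((numPoints a b p : ℝ) / p)

/-- The geometric mean of `P` on `[1, x]` with respect to the measure `dt / t`. -/
noncomputable def geomMean (a b : ℤ) (x : ℝ) : ℝ :=
  Real.exp ((∫ t in (1 : ℝ)..x, Real.log (P a b t) / t) / Real.log x)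

/-- `F` is an entire function which for `Re s > 3/2` is the incomplete `L`-series
`∏_{p ∤ 2Δ} (1 - a_p p^{-s} + p^{1-2s})⁻¹`, `a_p = p + 1 - N_p`, of `y² = x³ + a x + b`. -/
def IsLSeries (a b : ℤ) (F : ℂ → ℂ) : Prop :=
  Differentiable ℂ F ∧ ∀ s : ℂ, (3 : ℝ) / 2 < s.re →
    HasProd (fun p : ℕ => if Good a b p then
      (1 - ((p : ℂ) + 1 - (numPoints a b p : ℂ)) * (p : ℂ) ^ (-s) + (p : ℂ) ^ (1 - 2 * s))⁻¹ else 1)
      (F s)

/-- The `n`-th Fourier coefficient of `f`. -/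
noncomputable def coef {N : ℕ} (f : CuspForm (Gamma0 N : Subgroup (GL (Fin 2) ℝ)) 2) (n : ℕ) : ℂ :=
  (qExpansion 1 f).coeff n

/-- `f ∈ S_2(Γ₀(N))` is the newform of the elliptic curve `E : y² = x³ + a x + b` of conductor `N`: the
Fourier coefficients `c(n)` of `f` are real with `c(1) = 1`, they satisfy the Hecke relations
`c(mn) = c(m) c(n)` for coprime `m`, `n` and `c(p^(j+2)) = c(p) c(p^(j+1)) - p c(p^j)` (without the last
term if `p ∣ N`), `|c(p)| ≤ 2 √p` for all `p ∤ N` (Hasse) and `c(p) = 0, 1, -1` for `p ∣ N`, `f` is an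
eigenfunction of the Fricke involution: `f(-1/(Nτ)) = -w N τ² f(τ)` with `w = ±1`, the primes `p ∤ 2Δ` do
not divide `N`, and `c(p) = a_p = p + 1 - N_p` for these primes. -/
structure IsNewformOf (a b : ℤ) (N : ℕ) (f : CuspForm (Gamma0 N : Subgroup (GL (Fin 2) ℝ)) 2) :
    Prop where
  one : coef f 1 = 1
  real : ∀ n, (coef f n).im = 0
  mul : ∀ m n : ℕ, Nat.Coprime m n → coef f (m * n) = coef f m * coef f n
  pow : ∀ p j : ℕ, p.Prime → coef f (p ^ (j + 2)) = coef f p * coef f (p ^ (j + 1)) -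
      (if p ∣ N then 0 else (p : ℂ) * coef f (p ^ j))
  good : ∀ p : ℕ, p.Prime → ¬ p ∣ N → ‖coef f p‖ ≤ 2 * Real.sqrt p
  bad : ∀ p : ℕ, p.Prime → p ∣ N → coef f p = 0 ∨ coef f p = 1 ∨ coef f p = -1
  fricke : ∃ w : ℝ, (w = 1 ∨ w = -1) ∧ ∀ τ τ' : ℍ, (τ' : ℂ) * ((N : ℂ) * (τ : ℂ)) = -1 →
    f τ' = -(w : ℂ) * (N : ℂ) * (τ : ℂ) ^ 2 * f τ
  level : ∀ p : ℕ, Good a b p → ¬ p ∣ N
  points : ∀ p : ℕ, Good a b p → coef f p = (p : ℂ) + 1 - (numPoints a b p : ℂ)

/-- The Riemann hypothesis for the L-function of `E`: no zeros to the right of the line `Re s = 1`. -/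
def RH (F : ℂ → ℂ) : Prop := ∀ s : ℂ, 1 < s.re → F s ≠ 0

/-- `log √2 - r ψ(κ + 1) - log B`, where `ψ = Γ' / Γ` is the digamma function (`-ψ(1) = γ`) -/
noncomputable def value (r : ℕ) (κ B : ℝ) : ℝ :=
  Real.log (√2) - r * (deriv Real.Gamma (κ + 1) / Real.Gamma (κ + 1)) - Real.log B

/-- the leading coefficient `F^(r)(1) / r!` of the Taylor series of `F` at `1` -/
noncomputable def lead (F : ℂ → ℂ) (r : ℕ) : ℂ := iteratedDeriv r F 1 / (r.factorial : ℂ)

/-! ### Translation to the definitions of the imported files -/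

variable {a b : ℤ}

theorem P_eq : P a b = Pool.Agent.W263.BSD.bsdProduct a b := by
  funext x
  unfold P Pool.Agent.W263.BSD.bsdProduct numPoints Pool.Agent.W263.BSD.pointCount
  refine Finset.prod_congr rfl fun p _ => ?_
  push_cast
  rfl

theorem R_eq (κ : ℝ) : R a b κ = Pool.Agent.J6H91.BSDR.rieszR a b κ := by
  funext x
  unfold R Pool.Agent.J6H91.BSDR.rieszR numPoints Pool.Agent.W263.BSD.pointCount
  refine Finset.sum_congr rfl fun p _ => ?_
  push_cast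
  rfl

theorem numPoints_sub (p : ℕ) : (p : ℂ) + 1 - (numPoints a b p : ℂ) =
    (p : ℂ) - (Pool.Agent.W263.BSD.pointCount a b p : ℂ) := by
  unfold numPoints Pool.Agent.W263.BSD.pointCount
  push_cast
  ring

theorem isLSeries {F : ℂ → ℂ} (hF : IsLSeries a b F) :
    Pool.Agent.W263.BSD.IsLSeries a b F := by
  refine ⟨hF.1, fun s hs => ?_⟩
  have h := hF.2 s hs
  simp only [numPoints_sub] at h
  exact h

theorem hecke {N : ℕ} {f : CuspForm (Gamma0 N : Subgroup (GL (Fin 2) ℝ)) 2}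
    (hf : IsNewformOf a b N f) : Pool.Agent.TH941.Hecke f where
  one := hf.one
  real := hf.real
  mul := hf.mul
  pow := hf.pow
  good := hf.good
  bad := fun p hp h => by
    rcases hf.bad p hp h with h1 | h1 | h1
    · have h2 : ‖coef f p‖ ≤ 1 := by rw [h1]; simp
      exact h2
    · have h2 : ‖coef f p‖ ≤ 1 := by rw [h1]; simp
      exact h2
    · have h2 : ‖coef f p‖ ≤ 1 := by rw [h1]; simp
      exact h2

theorem growth {N : ℕ} [NeZero N] {f : CuspForm (Gamma0 N : Subgroup (GL (Fin 2) ℝ)) 2}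
    (hf : IsNewformOf a b N f) (hΔ : 4 * a ^ 3 + 27 * b ^ 2 ≠ 0) {F : ℂ → ℂ}
    (hF : IsLSeries a b F) : Pool.Agent.J6H91.BSDR.PolyGrowth2 F := by
  obtain ⟨w, hw, hfr⟩ := hf.fricke
  have hN0 : (0 : ℝ) ≤ (N : ℝ) := Nat.cast_nonneg N
  have hsq : ((Real.sqrt N : ℝ) : ℂ) ^ 2 = (N : ℂ) := by
    have h1 : (Real.sqrt N) ^ 2 = (N : ℝ) := Real.sq_sqrt hN0
    exact_mod_cast congrArg (fun x : ℝ => (x : ℂ)) h1
  have hf' : W388.IsNewf N 2 f w := by
    refine ⟨hf.one, hf.real, hf.mul, ?_, hw, ?_⟩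
    · intro p j hp
      have h1 := hf.pow p j hp
      unfold coef at h1
      rw [h1]
      norm_num
    · intro τ τ' h
      rw [hfr τ τ' h]
      congr 1
      have hI : Complex.I ^ 2 = -1 := Complex.I_sq
      have : (((Real.sqrt N : ℝ) : ℂ) * (τ : ℂ) / Complex.I) ^ (2 : ℤ) = -((N : ℂ) * (τ : ℂ) ^ 2) := by
        rw [zpow_ofNat, div_pow, mul_pow, hsq, hI]
        ring
      rw [this]
      ring
  exact Pool.Agent.J6H91.BSDR.poly_growth hf' hΔ (isLSeries hF)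
    (fun p hp => (hf.points p hp).trans (numPoints_sub p)) (fun p hp hg => hf.level p hg hp)

theorem value_eq {F : ℂ → ℂ} {r : ℕ} {κ : ℝ} :
    value r κ (Pool.Agent.W263.BSD.leadAbs F r) = Pool.Agent.J6H91.BSDR.cstR F r κ := by
  unfold value Pool.Agent.J6H91.BSDR.cstR Pool.Agent.J6H91.BSDR.dig
  rw [Real.log_sqrt (by norm_num)]

theorem value_one (r : ℕ) (B : ℝ) : value r 1 B =
    Real.log (√2) + r * (Real.eulerMascheroniConstant - 1) - Real.log B := by
  unfold value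
  have h1 := Real.deriv_Gamma_nat 1
  have h2 : harmonic 1 = 1 := by simp [harmonic]
  rw [h2] at h1
  norm_num at h1
  have h3 : Real.Gamma (1 + 1) = 1 := by
    rw [Real.Gamma_add_one one_ne_zero, Real.Gamma_one, mul_one]
  have h4 : deriv Real.Gamma (1 + 1) = -Real.eulerMascheroniConstant + 1 := by
    rw [show (1 : ℝ) + 1 = 2 by norm_num]
    exact h1
  rw [h3, h4]
  ring

theorem geom_eq {x : ℝ} (hx : 1 < x) : geomMean a b x = Real.exp (R a b 1 x) := by
  unfold geomMean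
  rw [P_eq, R_eq, ← (Pool.Agent.J6H91.BSDR.riesz_one hx).2]
  unfold Pool.Agent.J6H91.BSDR.rieszR Pool.Agent.W263.BSD.rieszMean
  refine congrArg _ (Finset.sum_congr rfl fun p _ => ?_)
  rw [Real.rpow_one, pow_one]

theorem norm_lead (F : ℂ → ℂ) (r : ℕ) : ‖lead F r‖ = Pool.Agent.W263.BSD.leadAbs F r := by
  unfold lead Pool.Agent.W263.BSD.leadAbs
  rw [norm_div, Complex.norm_natCast]

/-- **Main theorem.** -/
theorem result (a b : ℤ) (hΔ : 4 * a ^ 3 + 27 * b ^ 2 ≠ 0) (N : ℕ) [NeZero N]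
    (f : CuspForm (Gamma0 N : Subgroup (GL (Fin 2) ℝ)) 2) (hf : IsNewformOf a b N f)
    (F : ℂ → ℂ) (hF : IsLSeries a b F) :
    (∃ r : ℕ, analyticOrderAt F 1 = r ∧ List.TFAE [
      RH F,
      ∀ κ : ℝ, 0 < κ → Tendsto (fun x : ℝ => R a b κ x - r * Real.log (Real.log x)) atTop
        (𝓝 (value r κ ‖lead F r‖)),
      ∃ κ : ℝ, 0 ≤ κ ∧ ∃ ρ c : ℝ,
        Tendsto (fun x : ℝ => R a b κ x - ρ * Real.log (Real.log x)) atTop (𝓝 c),
      ∃ κ : ℝ, 0 ≤ κ ∧ ∀ ε : ℝ, 0 < ε → ∀ᶠ x : ℝ in atTop, R a b κ x ≤ x ^ ε]) ∧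
    (∀ κ : ℝ, 0 < κ → ∀ ρ : ℕ, ∀ B : ℝ, 0 < B →
      ((RH F ∧ analyticOrderAt F 1 = ρ ∧ lead F ρ = B) ↔
        Tendsto (fun x : ℝ => R a b κ x - ρ * Real.log (Real.log x)) atTop (𝓝 (value ρ κ B)))) ∧
    (∀ ρ : ℕ, ∀ B : ℝ, 0 < B →
      ((RH F ∧ analyticOrderAt F 1 = ρ ∧ lead F ρ = B) ↔
        Tendsto (fun x : ℝ => geomMean a b x / Real.log x ^ ρ) atTop
          (𝓝 (√2 * Real.exp (ρ * (Real.eulerMascheroniConstant - 1)) / B)))) := by
  have hF' := isLSeries hF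
  obtain ⟨r, hr⟩ := Pool.Agent.W263.BSD.order_finite hF'
  have hrs : Tendsto (Pool.Agent.W263.BSD.rsSum a b) atTop (𝓝 0) :=
    (hecke hf).rsSum_tendsto hΔ fun p hp => (hf.points p hp).trans (numPoints_sub p)
  have hg := growth hf hΔ hF
  have hlim : RH F → ∀ κ : ℝ, 0 < κ →
      Tendsto (fun x : ℝ => R a b κ x - r * Real.log (Real.log x)) atTop
        (𝓝 (value r κ ‖lead F r‖)) := by
    intro hRH κ hκ
    rw [norm_lead, value_eq, R_eq]
    exact Pool.Agent.J6H91.BSDR.rieszR_limit hΔ hF' hrs hg hr hRH hκ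
  have hup : ∀ κ : ℝ, ∀ ρ c : ℝ,
      Tendsto (fun x : ℝ => R a b κ x - ρ * Real.log (Real.log x)) atTop (𝓝 c) →
      ∀ ε : ℝ, 0 < ε → ∀ᶠ x : ℝ in atTop, R a b κ x ≤ x ^ ε := by
    intro κ ρ c h
    rw [R_eq] at h ⊢
    exact Pool.Agent.J6H91.BSDR.bound_of_tendsto h
  have hone : ∀ κ : ℝ, 0 ≤ κ → (∀ ε : ℝ, 0 < ε → ∀ᶠ x : ℝ in atTop, R a b κ x ≤ x ^ ε) → RH F := by
    intro κ hκ h s hs
    rw [R_eq] at h
    exact Pool.Agent.J6H91.BSDR.no_zeros_real hF' hκ h hs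
  have hpos : 0 < ‖lead F r‖ := by
    rw [norm_lead]
    exact (Pool.Agent.W263.BSD.lead_limit hF'.1 hr).1
  have hreal : RH F → lead F r = (‖lead F r‖ : ℂ) := by
    intro hRH
    rw [norm_lead]
    exact Pool.Agent.J6H91.BSDR.lead_pos hF' (fun s hs => hRH s (by simpa using hs)) hr
  have hmain : ∀ κ : ℝ, 0 < κ → ∀ ρ : ℕ, ∀ B : ℝ, 0 < B →
      ((RH F ∧ analyticOrderAt F 1 = ρ ∧ lead F ρ = B) ↔
        Tendsto (fun x : ℝ => R a b κ x - ρ * Real.log (Real.log x)) atTop (𝓝 (value ρ κ B))) := by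
    intro κ hκ ρ B hB
    constructor
    · rintro ⟨hRH, hρ, hl⟩
      have hrρ : r = ρ := by
        rw [hr] at hρ
        exact_mod_cast hρ
      subst hrρ
      have h1 := hlim hRH κ hκ
      rw [hl, Complex.norm_real, Real.norm_of_nonneg hB.le] at h1
      exact h1
    · intro h
      have hRH := hone κ hκ.le (hup κ ρ _ h)
      obtain ⟨h1, h2⟩ := Pool.Agent.J6H91.BSDR.expo_unique h (hlim hRH κ hκ)
      have hrρ : ρ = r := by exact_mod_cast h1
      subst hrρ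
      refine ⟨hRH, hr, ?_⟩
      have h3 : Real.log B = Real.log ‖lead F ρ‖ := by
        unfold value at h2
        linarith
      have h4 : B = ‖lead F ρ‖ := Real.log_injOn_pos hB hpos h3
      rw [hreal hRH, ← h4]
  refine ⟨⟨r, hr, ?_⟩, hmain, fun ρ B hB => ?_⟩
  · tfae_have 1 → 2 := hlim
    tfae_have 2 → 3 := fun h => ⟨1, zero_le_one, r, _, h 1 one_pos⟩
    tfae_have 3 → 4 := fun ⟨κ, hκ, ρ, c, h⟩ => ⟨κ, hκ, hup κ ρ c h⟩
    tfae_have 4 → 1 := fun ⟨κ, hκ, h⟩ => hone κ hκ h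
    tfae_finish
  · rw [hmain 1 one_pos ρ B hB]
    have hc : Real.exp (value ρ 1 B) = √2 * Real.exp (ρ * (Real.eulerMascheroniConstant - 1)) / B := by
      rw [value_one, Real.exp_sub, Real.exp_add, Real.exp_log (by positivity), Real.exp_log hB]
    have he : ∀ᶠ x : ℝ in atTop, Real.exp (R a b 1 x - ρ * Real.log (Real.log x)) =
        geomMean a b x / Real.log x ^ ρ := by
      filter_upwards [eventually_gt_atTop (Real.exp 1)] with x hx
      have hx1 : 1 < x := lt_trans (by simpa using Real.exp_lt_exp.mpr (zero_lt_one' ℝ)) hx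
      have hl : 0 < Real.log x := Real.log_pos hx1
      rw [geom_eq hx1, Real.exp_sub, ← Real.log_pow, Real.exp_log (pow_pos hl _)]
    rw [← hc]
    constructor
    · intro h
      exact ((Real.continuous_exp.tendsto _).comp h).congr' he
    · intro h
      have h1 := h.congr' (he.mono fun _ hx => hx.symm)
      have h2 := h1.log (Real.exp_pos _).ne'
      simpa only [Real.log_exp] using h2

end Pool.Agent.Results.MP_92892c_nt.RieszMeans
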