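import Pool.Agent.J6H23.PT.Fin

/-!
# The 2-part of the leading-term formula for the twists by a prime number of all the members of the
# family of `X_0(49)`, for several members at the same time

`D ≥ 1` runs over all the squarefree numbers whose prime factors are `≡ 1 mod 4`, and `E_D` is the
quadratic twist by `D` of `X_0(49) : y² + x y = x³ - x² - 2 x - 1`. The rank of `E_D(ℚ)` and
`Ш(E_D/ℚ)[2]` are arbitrary. We show that `E_D` has many twists by ONE more prime number `p` for which
the 2-part of the formula holds with `L(E_{D p}, 1) ≠ 0`, `E_{D p}(ℚ)` finite, `Ш(E_{D p}/ℚ)[2^∞] = 0`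
(`TwoPart (D p)`), and we count them:
* if `P` is a product of distinct primes `≡ 1 mod 4`, inert in `ℚ(√-7)`, prime to `D`, then
  `TwoPart (D P)` iff the matrix `mat D` over `𝔽₂`, with the Legendre symbols `(P / q)` added to its
  diagonal, is not singular;
* the number `N(D)` of the subsets of the set of the `b(D)` prime factors of `D` that split in `ℚ(√-7)`
  for which this matrix is not singular is ODD; in particular it is not zero, for all `D`;
* for a finite set `T` of members of the family, and for a class `a` modulo `M` of primes `≡ 1 mod 4`,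
  inert in `ℚ(√-7)`, the primes `p` of the class such that `TwoPart (D p)` holds for ALL `D ∈ T` have an
  exact relative density `share T`; if the members of `T` are coprime in pairs, then it is
  `∏_{D ∈ T} N(D) / 2 ^ b(D) > 0`: the twists of the different curves by the same prime are independent,
  and the 2-part holds for all of them at the same time for a positive proportion of the primes;
* for any `T` the density is positive iff there is at least one product `P` of distinct primes
  `≡ 1 mod 4`, inert in `ℚ(√-7)`, prime to the `D ∈ T`, with `TwoPart (D P)` for all `D ∈ T` (for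
  instance if `TwoPart D` for all `D ∈ T`, with `P = 1`);
* all this holds uniformly, with an error `x / (log x)^U`, for `M ∏_{D ∈ T} D ≤ (log x)^K`, and if the
  density is positive there is such a prime `p ≤ exp (C(ε) + (M ∏_{D ∈ T} D) ^ ε)`.

Proof: the criterion `two_iff` of the starting file `MP_4a9ea6_nt/TwoPartTwistsX49`; an inert prime factor
changes only the diagonal of the matrix; `∑_u det (A + diag u) = 1` over `𝔽₂` for any matrix `A`; the
Chinese remainder theorem and the theorem of Siegel and Walfisz (the starting file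
`Pool/Agent/R453/GS/Apg0`).
-/

set_option autoImplicit false

open Filter Topology
open scoped Classical

namespace Pool.Agent.Results.MP_92892c_nt.SimultaneousPrimeTwists

open Pool.Agent.TH841.NF.D (Sha)
open Pool.Agent.Results.MP_4a9ea6_nt.TwoPartTwistsX49 (E split nonsq mat TwoPart)

/-- the family: `D` is squarefree and all its prime factors are `≡ 1 mod 4` -/
def Family (D : ℕ) : Prop := Squarefree D ∧ ∀ p ∈ D.primeFactors, p % 4 = 1

/-- `p % 7` is not a square modulo seven: for a prime `p ≡ 1 mod 4`, `p` is inert in `ℚ(√-7)` -/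
def Inert (p : ℕ) : Prop := p % 7 = 3 ∨ p % 7 = 5 ∨ p % 7 = 6

/-- `E_D(ℚ)` is finite and `Ш(E_D/ℚ)` has no element of order two -/
def RankZeroShaTwo (D : ℕ) : Prop :=
  Finite (E D).toAffine.Point ∧ ∀ x : Sha (E D), 2 • x = 0 → x = 0

/-- the matrix `mat D` over the field with two elements, with `1` added to the diagonal entries at the
prime factors of `D` in `W` -/
noncomputable def matAt (D : ℕ) (W : Finset ℕ) : Matrix (split D) (split D) (ZMod 2) :=
  mat D + Matrix.diagonal fun i : split D => if (i : ℕ) ∈ W then 1 else 0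

/-- the prime factors of the members of `T` that split in `ℚ(√-7)` -/
noncomputable def splitPrimes (T : Finset ℕ) : Finset ℕ := T.biUnion split

/-- the sets `W` of these primes for which `matAt D W` is not singular for all `D ∈ T` -/
noncomputable def goodSets (T : Finset ℕ) : Finset (Finset ℕ) :=
  (splitPrimes T).powerset.filter fun W => ∀ D ∈ T, (matAt D W).det ≠ 0

/-- their proportion -/
noncomputable def share (T : Finset ℕ) : ℝ := ((goodSets T).card : ℝ) / 2 ^ (splitPrimes T).card

/-- `T` is a set of members of the family, and `a` is a class modulo the multiple `M` of `28`, `M` prime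
to the members of `T`, whose prime numbers are `≡ 1 mod 4` and inert in `ℚ(√-7)` -/
def Admissible (T : Finset ℕ) (M a : ℕ) : Prop :=
  (∀ D ∈ T, Family D ∧ M.Coprime D) ∧ M ≠ 0 ∧ 28 ∣ M ∧ a.Coprime M ∧ a % 4 = 1 ∧ Inert a

/-- the number of the primes `p ≤ x`, `p ≡ a mod M` -/
noncomputable def all (M a x : ℕ) : ℕ :=
  ((Finset.Icc 1 x).filter fun p => p.Prime ∧ p ≡ a [MOD M]).card

/-- the number of these primes such that the 2-part of the formula holds for `E_{D p}` for all
`D ∈ T` (and `p` does not divide `D`) -/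
noncomputable def good (T : Finset ℕ) (M a x : ℕ) : ℕ :=
  ((Finset.Icc 1 x).filter fun p => p.Prime ∧ p ≡ a [MOD M] ∧
    ∀ D ∈ T, ¬ p ∣ D ∧ TwoPart (D * p)).card

section proof

open Pool.Agent.J6H23.PT
open Pool.Agent.Results.MP_4a9ea6_nt.TwoPartTwistsX49 (core two_iff)

theorem two_sel {D : ℕ} (h : Family D) : TwoPart D ↔ RankZeroShaTwo D := by
  unfold RankZeroShaTwo
  simp only [two_nsmul]
  rw [two_iff h]
  exact (core h).2.2.2.1.symm

theorem inert_iff {p : ℕ} (hp : p.Prime) (h4 : p % 4 = 1) (h7 : Inert p) :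
    ¬ IsSquare (-7 : ZMod p) := by
  rw [Pool.Agent.R428.Q0.sq7_iff hp h4]
  unfold Inert at h7
  omega

theorem goodSets_eq (T : Finset ℕ) : goodSets T = Gt T := by
  unfold goodSets Gt
  ext W
  rw [Finset.mem_filter, Finset.mem_filter]
  exact Iff.rfl

theorem share_eq (T : Finset ℕ) : share T = dn T := by
  unfold share dn
  rw [goodSets_eq]
  rfl

theorem St_single (D : ℕ) : St {D} = split D := Finset.singleton_biUnion

theorem goodSets_single (D : ℕ) : (goodSets {D}).card = Nn D := by
  rw [goodSets_eq]
  unfold Gt Nn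
  rw [St_single]
  refine congrArg Finset.card (Finset.filter_congr fun W _ => ?_)
  exact ⟨fun h => h D (Finset.mem_singleton_self D), fun h D' hD' => by
    rw [Finset.mem_singleton.1 hD']
    exact h⟩

theorem ok_of {T : Finset ℕ} {M a : ℕ} (h : Admissible T M a) : Ok M a :=
  ⟨h.2.1, h.2.2.1, h.2.2.2.1, h.2.2.2.2.1, h.2.2.2.2.2⟩

end proof

theorem result :
    -- the criterion for the twists by products of inert primes
    (∀ D P : ℕ, Family D → Family P → (∀ p ∈ P.primeFactors, Inert p) → D.Coprime P →
      (TwoPart (D * P) ↔ RankZeroShaTwo (D * P)) ∧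
      (TwoPart (D * P) ↔ (mat D + Matrix.diagonal fun q : split D => nonsq q P).det ≠ 0)) ∧
    -- the number of the good sets of prime factors is odd
    (∀ D : ℕ, Family D → Odd (goodSets {D}).card) ∧
    -- independence
    (∀ T : Finset ℕ, (∀ D ∈ T, Family D) → (∀ D ∈ T, ∀ D' ∈ T, D ≠ D' → D.Coprime D') →
      share T = ∏ D ∈ T, share {D} ∧ 0 < share T) ∧
    -- the density
    (∀ (T : Finset ℕ) (M a : ℕ), Admissible T M a →
      Tendsto (fun x : ℕ => (good T M a x : ℝ) / (all M a x : ℝ)) atTop (𝓝 (share T))) ∧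
    -- the uniform count
    (∀ K U : ℕ, ∃ x₀ : ℕ, ∀ x : ℕ, x₀ ≤ x → ∀ (T : Finset ℕ) (M a : ℕ), Admissible T M a →
      ((M * ∏ D ∈ T, D : ℕ) : ℝ) ≤ Real.log x ^ K →
        |(good T M a x : ℝ) - share T * all M a x| ≤ x / Real.log x ^ U) ∧
    -- the least prime
    (∀ ε : ℝ, 0 < ε → ∃ C : ℝ, ∀ (T : Finset ℕ) (M a : ℕ), Admissible T M a → share T ≠ 0 →
      ∃ p : ℕ, (p : ℝ) ≤ Real.exp (C + ((M * ∏ D ∈ T, D : ℕ) : ℝ) ^ ε) ∧
        p.Prime ∧ p ≡ a [MOD M] ∧ ∀ D ∈ T, ¬ p ∣ D ∧ TwoPart (D * p)) ∧
    -- one twist suffices for the positivity of the density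
    (∀ T : Finset ℕ, (∀ D ∈ T, Family D) → (0 < share T ↔ ∃ P : ℕ, Family P ∧
      (∀ p ∈ P.primeFactors, Inert p) ∧ ∀ D ∈ T, D.Coprime P ∧ TwoPart (D * P))) := by
  refine ⟨fun D P hD hP h7 hc => ⟨two_sel (Pool.Agent.J6H23.PT.adm_mul hD hP hc),
      Pool.Agent.J6H23.PT.two_mul hD hP (fun l hl => inert_iff (Nat.prime_of_mem_primeFactors hl)
        (hP.2 l hl) (h7 l hl)) hc⟩,
    fun D _ => by rw [goodSets_single]; exact Pool.Agent.J6H23.PT.Nn_odd D, ?_, ?_, ?_, ?_, ?_⟩
  · intro T hT hc
    have h0 : ∀ D ∈ T, D ≠ 0 := fun D hD => (hT D hD).1.ne_zero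
    refine ⟨?_, ?_⟩
    · rw [share_eq, Pool.Agent.J6H23.PT.dn_prod h0 hc]
      refine Finset.prod_congr rfl fun D _ => ?_
      unfold share splitPrimes
      rw [goodSets_single, Finset.singleton_biUnion]
    · rw [share_eq]
      unfold Pool.Agent.J6H23.PT.dn
      have := (Pool.Agent.J6H23.PT.Gt_nonempty h0 hc).card_pos
      positivity
  · intro T M a h
    have h1 := Pool.Agent.J6H23.PT.tends (T := T) (M := M) (a := a) (fun D hD => (h.1 D hD).1)
      (fun D hD => (h.1 D hD).2) (ok_of h)
    rw [share_eq]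
    exact h1
  · intro K U
    obtain ⟨x0, h0⟩ := Pool.Agent.J6H23.PT.gd_al K U
    refine ⟨x0, fun x hx T M a h hR => ?_⟩
    rw [share_eq]
    exact h0 x hx T M a (fun D hD => (h.1 D hD).1) (fun D hD => (h.1 D hD).2) (ok_of h) hR
  · intro ε hε
    obtain ⟨C, hC⟩ := Pool.Agent.J6H23.PT.least hε
    refine ⟨C, fun T M a h hs => ?_⟩
    refine hC T M a (fun D hD => (h.1 D hD).1) (fun D hD => (h.1 D hD).2) (ok_of h) ?_
    rw [Finset.nonempty_iff_ne_empty]
    intro h0
    apply hs
    rw [share_eq]
    unfold Pool.Agent.J6H23.PT.dn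
    rw [h0, Finset.card_empty, Nat.cast_zero, zero_div]
  · intro T hT
    have hcs : 0 < share T ↔ (Pool.Agent.J6H23.PT.Gt T).Nonempty := by
      rw [share_eq]
      unfold Pool.Agent.J6H23.PT.dn
      rw [← Finset.card_pos]
      constructor
      · intro h
        by_contra h0
        rw [Nat.eq_zero_of_not_pos h0, Nat.cast_zero, zero_div] at h
        exact lt_irrefl _ h
      · intro h
        positivity
    rw [hcs]
    constructor
    · intro h
      obtain ⟨C, hC⟩ := Pool.Agent.J6H23.PT.least one_pos
      have h28 : ∀ D ∈ T, Nat.Coprime 28 D := by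
        intro D hD
        refine Nat.Coprime.symm (Nat.Coprime.mul_right (m := 4) (n := 7) ?_ ?_)
        · refine Nat.Coprime.pow_right 2 (Nat.coprime_comm.1 ((Nat.Prime.coprime_iff_not_dvd
            Nat.prime_two).2 fun hd => ?_))
          have := (hT D hD).2 2 (Nat.mem_primeFactors.2 ⟨Nat.prime_two, hd, (hT D hD).1.ne_zero⟩)
          omega
        · refine Nat.coprime_comm.1 ((Nat.Prime.coprime_iff_not_dvd (by norm_num)).2 fun hd => ?_)
          have := (hT D hD).2 7 (Nat.mem_primeFactors.2 ⟨by norm_num, hd, (hT D hD).1.ne_zero⟩)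
          omega
      obtain ⟨p, -, hp, hpa, hall⟩ := hC T 28 5 hT h28 ⟨by norm_num, dvd_refl _, by norm_num,
        by norm_num, by norm_num⟩ h
      have g1 : p % 4 = 5 % 4 := hpa.of_dvd (show 4 ∣ 28 by norm_num)
      have g2 : p % 7 = 5 % 7 := hpa.of_dvd (show 7 ∣ 28 by norm_num)
      refine ⟨p, ⟨hp.prime.squarefree, fun q hq => ?_⟩, fun q hq => ?_, fun D hD =>
        ⟨(hp.coprime_iff_not_dvd.2 (hall D hD).1).symm, (hall D hD).2⟩⟩
      · rw [hp.primeFactors, Finset.mem_singleton] at hq
        rw [hq]
        omega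
      · rw [hp.primeFactors, Finset.mem_singleton] at hq
        rw [hq]
        unfold Inert
        omega
    · rintro ⟨P, hP, h7, h⟩
      exact ⟨_, (Pool.Agent.J6H23.PT.two_P hT hP (fun l hl => inert_iff
        (Nat.prime_of_mem_primeFactors hl) (hP.2 l hl) (h7 l hl)) fun D hD => (h D hD).1).1
          fun D hD => (h D hD).2⟩

end Pool.Agent.Results.MP_92892c_nt.SimultaneousPrimeTwists
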