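import Pool.Agent.Y703.CT.T1d
import Pool.Agent.J6H23.CP.Cnt

/-!
# The 3-part of the leading-term formula for the cubic twists by one more prime

`D` runs over the class of the starting file `MP_4a9ea6_nt/ThreePartCubeFree`: `D` is cube-free, prime to
`3`, not `±1` modulo `9`, and exactly one prime `≡ 2` modulo `3` divides `D`, with any number `m(D)` of
primes `≡ 1` modulo `3`. The curve is `E_D : y² + D y = x³`, `3`-isogenous to `x³ + y³ = D`; its rank and
`Ш(E_D/ℚ)[3]` are arbitrary. We twist `E_D` by ONE more prime `p ≡ 1` modulo `3`, with exponent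
`e ∈ {1, 2}`, and count the `p` for which the 3-part of the formula holds, with `E_{D p^e}(ℚ)` finite and
`Ш(E_{D p^e}/ℚ)[3^∞] = 0` (`ThreePart (D p ^ e)`):
* a criterion by linear algebra over `𝔽₃` with the cubic residue symbols of the prime factors of `D`
  modulo each other (given) and the symbols between them and `p`;
* for a finite set `T` of members of the class, coprime in pairs, exponents `e D ∈ {1, 2}`, and
  `a ∈ {1, 4, 7}` such that the `D a ^ e(D)` are not `±1` modulo `9`, the primes `p ≡ a` modulo `9` such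
  that `ThreePart (D p ^ e(D))` for ALL `D ∈ T` have the exact relative density `∏_{D ∈ T} share D`:
  the twists of different curves by the same prime are independent, and the density does not depend on
  the class `a` and on the exponents;
* `(2/3) ^ (m(D) + 1) ≤ share D ≤ 2/3` for all `D`; here `share D = (2/3) N(D) / 3 ^ m(D)`, and `N(D)`
  counts the parameters `u ∈ 𝔽₃ ^ m(D)` for which a linear system has exactly three solutions.
In particular every `D` of the class has, in every admissible class `a` and for both exponents, a positive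
proportion of good prime twists, however large the rank of `E_D` is; for `D = q, q²` it is `2/3`.

Proof: the criterion and the formula are those of the start files `Pool/Agent/Y703/CT` (see there); the
new prime adds one row and one column to the matrix, with entries that are given by the symbols of its
primary factor at the primary factors of the prime factors of `D`; the joint law of these symbols is
the start library `Pool/Agent/Q283/TC` (Chebotarev); the count of the good symbols is linear algebra, and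
the lower bound holds since a polynomial `det (A + diag u)` has at least `2 ^ m` values that are not zero.
-/

set_option autoImplicit false

open Filter Topology
open scoped Classical

namespace Pool.Agent.Results.MP_92892c_nt.ThreePartPrimeTwists

open Pool.Agent.Y703.CT (WD IsL tamProd tors ThreeUnit Triv3 Cls)
open Pool.Agent.W97.MT (IsGloballyMinimal)
open Pool.Agent.Y700 (Omega)
open Pool.Agent.Y703.CX (lam)

/-- the 3-part of the formula holds for `E_D`, with `E_D(ℚ)` finite and `Ш(E_D/ℚ)[3^∞] = 0`: the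
quotient `u = L(E_D, 1) |E_D(ℚ)_tors|² / (Ω ∏ c_p)` is a unit at `3` (so it is not zero) -/
def ThreePart (D : ℕ) : Prop :=
  Triv3 D ∧ IsGloballyMinimal (WD D) ∧ ∃ f : ℂ → ℂ, IsL (WD D) f ∧ ∃ u : ℂ,
    f 1 = u * (((Omega (WD D) : ℝ) : ℂ) * (tamProd (WD D) : ℂ) / (tors D : ℂ) ^ 2) ∧ ThreeUnit u

/-- the prime factors of `D` that are `1` modulo `3` -/
def oneMod (D : ℕ) : Finset ℕ := D.primeFactors.filter fun p => p % 3 = 1

/-- the exponent of the prime factor `q` in the cube-free number `D` -/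
noncomputable def wgt (D q : ℕ) : ZMod 3 := if q ^ 2 ∣ D then 2 else 1

/-- `c` is a solution of the system of `D` with the parameters `u`; `lam i j` is the cubic residue
symbol of `j` modulo the prime `i ≡ 1` modulo `3`, written additively -/
def IsSol (D : ℕ) (u : oneMod D → ZMod 3) (c : D.primeFactors → ZMod 3) : Prop :=
  ∀ i : D.primeFactors, ∀ h : (i : ℕ) ∈ oneMod D,
    ∑ j : D.primeFactors, (c j - c i) * (wgt D j * lam i j) = c i * u ⟨i, h⟩

/-- the number of the parameters `u` for which the system has exactly three solutions -/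
noncomputable def good (D : ℕ) : ℕ :=
  Nat.card {u : oneMod D → ZMod 3 // Nat.card {c : D.primeFactors → ZMod 3 // IsSol D u c} = 3}

/-- the density of the good primes for `D` -/
noncomputable def share (D : ℕ) : ℝ := 2 / 3 * (good D : ℝ) / 3 ^ (oneMod D).card

/-- `D p ^ e` belongs to the class for the primes `p ≡ a` modulo `9` that do not divide `D` -/
def Adm (D e a : ℕ) : Prop :=
  Cls D ∧ (e = 1 ∨ e = 2) ∧ (a = 1 ∨ a = 4 ∨ a = 7) ∧ (D * a ^ e) % 9 ≠ 1 ∧ (D * a ^ e) % 9 ≠ 8

/-- the number of the primes `p ≤ x`, `p ≡ a` modulo `9` -/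
noncomputable def all (a x : ℕ) : ℕ :=
  ((Finset.Icc 1 x).filter fun p => p.Prime ∧ p % 9 = a).card

/-- the number of these primes such that the 3-part holds for `E_{D p ^ e(D)}` for all `D ∈ T` (and `p`
does not divide `D`) -/
noncomputable def goodPrimes (T : Finset ℕ) (e : ℕ → ℕ) (a x : ℕ) : ℕ :=
  ((Finset.Icc 1 x).filter fun p => p.Prime ∧ p % 9 = a ∧
    ∀ D ∈ T, ¬ p ∣ D ∧ ThreePart (D * p ^ e D)).card

section proof

open Pool.Agent.J6H23.CP
open Pool.Agent.Y703.CT (NoSplit fin_all)
open Pool.Agent.R419.CF (wt)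
open Pool.Agent.R419.CF.NS (MD)
open Pool.Agent.W401.Cheb (pr)
open Pool.Agent.Y715.T.Rec (cs)
open Pool.Agent.Y703.CX (pp)

theorem three_iff {D : ℕ} (hC : Cls D) : ThreePart D ↔ NoSplit D := by
  obtain ⟨hm, f, hf, u, h1, -, h2, h3⟩ := fin_all hC
  constructor
  · intro h
    exact h3.1 h.1
  · intro h
    have ht := h3.2 h
    exact ⟨ht, hm, f, hf, u, h1, h2.2 ht⟩

theorem wgt_eq {D q : ℕ} (hq : q ∈ D.primeFactors) : wt (MD D) q = wgt D q := by
  unfold wt wgt
  by_cases h : q ^ 2 ∣ D
  · rw [if_pos h, if_pos (mem_MD.2 ⟨hq, h⟩)]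
  · rw [if_neg h, if_neg fun h' => h (mem_MD.1 h').2]

theorem mem_one {D : ℕ} {i : ℕ} (hi : i ∈ D.primeFactors) : i ∈ oneMod D ↔ i % 3 = 1 := by
  unfold oneMod
  rw [Finset.mem_filter]
  exact and_iff_right hi

theorem sum_eq (D : ℕ) (c : D.primeFactors → ZMod 3) (i : D.primeFactors) :
    ∑ j : D.primeFactors, (c j - c i) * aa D i j =
      ∑ j : D.primeFactors, (c j - c i) * (wgt D j * lam i j) := by
  refine Finset.sum_congr rfl fun j _ => ?_
  unfold aa
  rw [wgt_eq j.2]

theorem sol_iff {D : ℕ} (u : oneMod D → ZMod 3) (c : D.primeFactors → ZMod 3) :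
    IsSol D u c ↔ c ∈ Kk D.primeFactors (aa D) (ex u) := by
  rw [mem_Kk]
  unfold IsSol
  refine forall_congr' fun i => ?_
  rw [sum_eq]
  constructor
  · intro h hi
    have h1 := h ((mem_one i.2).2 hi)
    rw [h1]
    exact congrArg (c i * ·) (ex_coe u ⟨i, (mem_one i.2).2 hi⟩).symm
  · intro h hi
    have h1 := h ((mem_one i.2).1 hi)
    rw [h1]
    exact congrArg (c i * ·) (ex_coe u ⟨i, hi⟩)

theorem good_eq (D : ℕ) : good D = Nu D.primeFactors (aa D) := by
  unfold good Nu
  rw [Nat.card_eq_fintype_card, Fintype.card_subtype]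
  refine congrArg Finset.card (Finset.filter_congr fun u _ => ?_)
  have h1 : Nat.card {c : D.primeFactors → ZMod 3 // IsSol D u c} =
      Nat.card (Kk D.primeFactors (aa D) (ex u)) :=
    Nat.card_congr (Equiv.subtypeEquivRight fun c => sol_iff u c)
  rw [h1]
  exact Iff.rfl

theorem share_eq (D : ℕ) : share D = de D := by
  unfold share de
  rw [good_eq]
  rfl

theorem good_le (D : ℕ) : good D ≤ 3 ^ (oneMod D).card := by
  have h1 : Nat.card {u : oneMod D → ZMod 3 //
      Nat.card {c : D.primeFactors → ZMod 3 // IsSol D u c} = 3} ≤ Nat.card (oneMod D → ZMod 3) :=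
    Nat.card_le_card_of_injective _ Subtype.val_injective
  have h2 : Nat.card (oneMod D → ZMod 3) = 3 ^ (oneMod D).card := by
    rw [Nat.card_eq_fintype_card, Fintype.card_fun, ZMod.card, Fintype.card_coe]
  unfold good
  rwa [h2] at h1

theorem share_le (D : ℕ) : share D ≤ 2 / 3 := by
  have h1 : (good D : ℝ) ≤ 3 ^ (oneMod D).card := by exact_mod_cast good_le D
  have h2 : (0 : ℝ) < 3 ^ (oneMod D).card := by positivity
  unfold share
  rw [div_le_iff₀ h2]
  linarith

theorem sol_iff' {D : ℕ} (u : ℕ → ZMod 3) (c : D.primeFactors → ZMod 3) :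
    IsSol D (fun i => u i) c ↔ c ∈ Kk D.primeFactors (aa D) u := by
  rw [mem_Kk]
  unfold IsSol
  refine forall_congr' fun i => ?_
  rw [sum_eq]
  exact ⟨fun h hi => h ((mem_one i.2).2 hi), fun h hi => h ((mem_one i.2).1 hi)⟩

theorem mod_nine {D e a p : ℕ} (h : p % 9 = a) : (D * p ^ e) % 9 = (D * a ^ e) % 9 := by
  have h1 : p ≡ a [MOD 9] := by
    rw [← h]
    exact (Nat.mod_modEq p 9).symm
  exact (h1.pow e).mul_left D

/-- the class and the criterion -/
theorem iff_GG {D e a p : ℕ} (h : Adm D e a) (hp : p.Prime) (ha : p % 9 = a) (hpD : ¬ p ∣ D) :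
    ThreePart (D * p ^ e) ↔ GG D e fun ρ => cs (pp p) ρ := by
  obtain ⟨hC, he, ha', h1, h8⟩ := h
  have hp3 : p % 3 = 1 := by omega
  rw [← mod_nine ha] at h1 h8
  rw [three_iff (cls_mul hC hp hp3 hpD he h1 h8)]
  exact crit hC hp hp3 hpD he h1 h8

theorem iff_sys {D e p : ℕ} (h : Adm D e (p % 9)) (hp : p.Prime) (hpD : ¬ p ∣ D) :
    ThreePart (D * p ^ e) ↔ ∀ c : D.primeFactors → ZMod 3,
        IsSol D (fun i => (e : ZMod 3) * lam i p) c →
          ∑ j : D.primeFactors, c j * (wgt D j * lam p j) = 0 → c = 0 := by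
  obtain ⟨hC, he, ha', h1, h8⟩ := h
  have hp3 : p % 3 = 1 := by omega
  rw [← mod_nine rfl] at h1 h8
  have hC' := cls_mul hC hp hp3 hpD he h1 h8
  rw [three_iff hC']
  have h2 : NoSplit (D * p ^ e) ↔ Pool.Agent.R419.CF.GdW (MD (D * p ^ e)) (D * p ^ e).primeFactors :=
    ⟨Pool.Agent.R419.CF.NS.gdw_of_nosplit hL hC', Pool.Agent.R419.CF.NS.nosplit_of_gdw hL hC'⟩
  rw [h2, gdw_iff hC.1.1 hp hpD he hp3]
  unfold Gd2
  refine forall_congr' fun c => ?_
  rw [← sol_iff' (fun i => (e : ZMod 3) * lam i p) c]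
  have h3 : ∑ j : D.primeFactors, c j * (wt (MD D) j * (fun j => lam p j) j) =
      ∑ j : D.primeFactors, c j * (wgt D j * lam p j) :=
    Finset.sum_congr rfl fun j _ => by rw [wgt_eq j.2]
  rw [h3]

theorem mem_pr' {p x : ℕ} : p ∈ pr x ↔ p ≤ x ∧ p.Prime := by
  unfold pr
  rw [Finset.mem_filter, Finset.mem_range]
  exact and_congr_left fun _ => Nat.lt_succ_iff

theorem cP_card {Q : ℕ → Prop} {S : Finset ℕ} {x : ℕ}
    (h : ∀ p, p ∈ S ↔ p ∈ Finset.Icc 1 x ∧ p.Prime ∧ Q p) : S.card = cP Q x := by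
  unfold cP
  refine congrArg Finset.card ?_
  ext p
  rw [Finset.mem_filter, mem_pr', h p, Finset.mem_Icc]
  constructor
  · rintro ⟨⟨-, h1⟩, h2, h3⟩
    exact ⟨⟨h1, h2⟩, h3⟩
  · rintro ⟨⟨h1, h2⟩, h3⟩
    exact ⟨⟨h2.one_lt.le, h1⟩, h2, h3⟩

theorem all_eq (a x : ℕ) : all a x = cP (fun p => p % 9 = a) x :=
  cP_card fun _ => Finset.mem_filter

theorem good_pr {T : Finset ℕ} {e : ℕ → ℕ} {a : ℕ} (hT : ∀ D ∈ T, Adm D (e D) a) (x : ℕ) :
    goodPrimes T e a x = cP (fun p => p % 9 = a ∧ ∀ D ∈ T, ¬ p ∣ D ∧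
      GG D (e D) fun ρ => cs (pp p) ρ) x := by
  refine cP_card fun p => ?_
  rw [Finset.mem_filter]
  refine and_congr_right fun _ => and_congr_right fun h2 => and_congr_right fun h3 => ?_
  refine forall₂_congr fun D hD => and_congr_right fun h4 => ?_
  exact iff_GG (hT D hD) h2 h3 h4

end proof

theorem result :
    -- the criterion
    (∀ D p e : ℕ, Adm D e (p % 9) → p.Prime → ¬ p ∣ D →
      (ThreePart (D * p ^ e) ↔ ∀ c : D.primeFactors → ZMod 3,
        IsSol D (fun i => (e : ZMod 3) * lam i p) c →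
          ∑ j : D.primeFactors, c j * (wgt D j * lam p j) = 0 → c = 0)) ∧
    -- the shares
    (∀ D : ℕ, Cls D → (2 / 3 : ℝ) ^ ((oneMod D).card + 1) ≤ share D ∧ share D ≤ 2 / 3) ∧
    -- the density for several curves at the same time
    (∀ (T : Finset ℕ) (e : ℕ → ℕ) (a : ℕ), (∀ D ∈ T, Adm D (e D) a) →
      (∀ D ∈ T, ∀ D' ∈ T, D ≠ D' → D.Coprime D') → T.Nonempty →
        Tendsto (fun x : ℕ => (goodPrimes T e a x : ℝ) / (all a x : ℝ)) atTop
          (𝓝 (∏ D ∈ T, share D))) := by
  refine ⟨fun D p e h hp hpD => iff_sys h hp hpD, fun D hC => ⟨?_, share_le D⟩, ?_⟩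
  · rw [share_eq]
    exact Pool.Agent.J6H23.CP.de_ge hC
  · intro T e a hT hc hne
    obtain ⟨D₀, hD₀⟩ := hne
    have h1 := Pool.Agent.J6H23.CP.main (T := T) (e := e) (a := a) (fun D hD => (hT D hD).1) hc
      (fun D hD => (hT D hD).2.1) (hT D₀ hD₀).2.2.1
    rw [Finset.prod_congr rfl fun D _ => share_eq D]
    refine h1.congr fun x => ?_
    rw [all_eq, good_pr hT]

end Pool.Agent.Results.MP_92892c_nt.ThreePartPrimeTwists
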